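import Pool.Agent.P.MP_2d96df_co.H35.Transfer

/-! Above `(1 + ε) C log n / n` the random graph is a.a.s. `d`-rigid iff it has enough edges. -/

namespace Pool.Agent.Results.MP_2d96df_co.ExactThreshold

open Pool.Agent.P.MP_2d96df_co.H35 Filter Topology

theorem result (ε : ℝ) (hε : 0 < ε) (p : ℕ → unitInterval) (d : ℕ → ℕ)
    (hp : ∀ᶠ n : ℕ in atTop, (1 + ε) * (2 / (1 - Real.log 2) * Real.log n / n) ≤ (p n : ℝ))
    (hd : ∀ᶠ n : ℕ in atTop, 1 ≤ d n ∧ d n ≤ n - 1) :
    Tendsto (fun n : ℕ => (SimpleGraph.binomialRandom (Fin n) (p n)).real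
      {G | IsRigid (d n) G ↔ d n * n - (d n + 1).choose 2 ≤ G.edgeSet.ncard}) atTop (𝓝 1) := by
  rw [Metric.tendsto_nhds]
  intro η hη
  obtain ⟨n0, H⟩ := main_abs ε hε (η / 2) (by positivity)
  filter_upwards [hp, hd, tendsto_natCast_atTop_atTop.eventually_ge_atTop n0,
    eventually_ge_atTop 1] with n h1 h2 h3 h4
  have hn : (0 : ℝ) < n := by exact_mod_cast h4
  have hdn : d n + 1 ≤ n := by omega
  have hb := H _ (Fin n) (PU (Fin n)) (gen_PU _) (p n) (p n).2.2 (by simpa using h3) (by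
    rw [Fintype.card_fin, ← div_le_iff₀ hn]
    exact le_trans (le_of_eq (by ring)) h1) (d n + 1) (by omega) (by simpa using hdn)
  rw [real_eq_Pr]
  have h5 := Pr_le_one (Ω := pr Finset.univ Finset.univ) (p n).2.1 (p n).2.2
    (fun E : Finset (Sym2 (Fin n)) => SimpleGraph.fromEdgeSet (E : Set (Sym2 (Fin n))) ∈
      {G | IsRigid (d n) G ↔ d n * n - (d n + 1).choose 2 ≤ G.edgeSet.ncard})
  have h6 := Pr_not (Ω := pr Finset.univ Finset.univ) (p := p n)
    (fun E : Finset (Sym2 (Fin n)) => SimpleGraph.fromEdgeSet (E : Set (Sym2 (Fin n))) ∈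
      {G | IsRigid (d n) G ↔ d n * n - (d n + 1).choose 2 ≤ G.edgeSet.ncard})
  have h7 := (Pr_mono (Ω := pr Finset.univ Finset.univ) (p n).2.1 (p n).2.2
    (A := fun E : Finset (Sym2 (Fin n)) => ¬ SimpleGraph.fromEdgeSet (E : Set (Sym2 (Fin n))) ∈
      {G | IsRigid (d n) G ↔ d n * n - (d n + 1).choose 2 ≤ G.edgeSet.ncard})
    (fun E hE h => by
      have hE' : (SimpleGraph.fromEdgeSet (E : Set (Sym2 (Fin n)))).edgeSet = E := by
        rw [SimpleGraph.edgeSet_fromEdgeSet, sdiff_eq_left, Set.disjoint_left]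
        exact fun e he => mem_pr_univ.1 (hE he)
      have hc : d n * n - (d n + 1).choose 2 ≤ E.card := by
        by_contra hc
        refine h ⟨IsRigid.card_le, fun h' => ?_⟩
        rw [hE', Set.ncard_coe_finset] at h'
        exact absurd h' hc
      refine ⟨fun hr => h ⟨IsRigid.card_le, fun _ => isRigid_of_rigid hdn _ E hE' hr⟩, ?_⟩
      have := choose_id hdn
      simp only [Enough, Fintype.card_fin]
      omega)).trans hb
  rw [Real.dist_eq, abs_lt]
  constructor <;> linarith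

end Pool.Agent.Results.MP_2d96df_co.ExactThreshold
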